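import Mathlib

set_option autoImplicit false

namespace Pool.Agent.Results.MP_428550_an.Holder

open Filter Topology

abbrev I := Set.Icc (0 : ℝ) 1

/-- A is (n, φ, ε)-separated: distinct points have d_n(x,y) > ε -/
def Separated (φ : I → I) (n : ℕ) (ε : ℝ) (A : Finset I) : Prop :=
  ∀ x ∈ A, ∀ y ∈ A, x ≠ y → ∃ j < n, ε < |(φ^[j] x : ℝ) - (φ^[j] y : ℝ)|

noncomputable def sepN (φ : I → I) (n : ℕ) (ε : ℝ) : ℕ :=
  sSup {m : ℕ | ∃ A : Finset I, Separated φ n ε A ∧ A.card = m}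

noncomputable def sepRate (φ : I → I) (ε : ℝ) : EReal :=
  limsup (fun n : ℕ => ((Real.log (sepN φ n ε) / n : ℝ) : EReal)) atTop

noncomputable def upperMdim (φ : I → I) : EReal :=
  limsup (fun ε : ℝ => sepRate φ ε / ((|Real.log ε| : ℝ) : EReal)) (𝓝[>] 0)

noncomputable def lowerMdim (φ : I → I) : EReal :=
  liminf (fun ε : ℝ => sepRate φ ε / ((|Real.log ε| : ℝ) : EReal)) (𝓝[>] 0)

lemma cell {a b ε : ℝ} (hε : 0 < ε) (h : ⌊a / ε⌋ = ⌊b / ε⌋) : |a - b| ≤ ε := by
  have := (Int.abs_sub_lt_one_of_floor_eq_floor h).le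
  rwa [← sub_div, abs_div, abs_of_pos hε, div_le_one hε] at this

lemma count {φ : I → I} {K α ε : ℝ} (hK : 0 < K) (hα : 0 < α) (hε : 0 < ε)
    (h : ∀ x y : I, |(φ x : ℝ) - φ y| ≤ K * |(x : ℝ) - y| ^ α) (n : ℕ) :
    sepN φ n ε ≤ (⌊1 / ε⌋₊ + 1) * (2 * (⌈K * ε ^ (α - 1)⌉₊ + 1) + 1) ^ n := by
  classical
  set D := ⌈K * ε ^ (α - 1)⌉₊ + 1 with hD
  set c : I → ℤ := fun x => ⌊(x : ℝ) / ε⌋ with hc
  have ht : ∀ i : ℤ, ∃ t : ℤ, ∀ x, c x = i → c (φ x) - t ∈ Finset.Icc (-(D : ℤ)) D := by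
    intro i
    by_cases hi : ∃ y, c y = i
    · obtain ⟨y, hy⟩ := hi
      refine ⟨c (φ y), fun x hx => ?_⟩
      have h1 := cell hε (hx.trans hy.symm)
      have h2 : |(φ x : ℝ) - φ y| ≤ K * ε ^ α :=
        (h x y).trans (mul_le_mul_of_nonneg_left (Real.rpow_le_rpow (abs_nonneg _) h1 hα.le) hK.le)
      have h3 : |(φ x : ℝ) / ε - φ y / ε| ≤ K * ε ^ (α - 1) := by
        rw [← sub_div, abs_div, abs_of_pos hε, Real.rpow_sub_one hε.ne', ← mul_div_assoc]
        exact div_le_div_of_nonneg_right h2 hε.le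
      have h4 := Nat.le_ceil (K * ε ^ (α - 1))
      have a1 := Int.floor_le ((φ x : ℝ) / ε)
      have a2 := Int.lt_floor_add_one ((φ x : ℝ) / ε)
      have a3 := Int.floor_le ((φ y : ℝ) / ε)
      have a4 := Int.lt_floor_add_one ((φ y : ℝ) / ε)
      rw [abs_le] at h3
      rw [Finset.mem_Icc]
      constructor
      · have : (-(D : ℝ)) ≤ (c (φ x) : ℝ) - c (φ y) := by
          simp only [hc, hD]; push_cast; linarith [h3.1]
        exact_mod_cast this
      · have : (c (φ x) : ℝ) - c (φ y) ≤ D := by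
          simp only [hc, hD]; push_cast; linarith [h3.2]
        exact_mod_cast this
    · exact ⟨0, fun x hx => absurd ⟨x, hx⟩ hi⟩
  choose t ht using ht
  refine csSup_le' ?_
  rintro _ ⟨A, hA, rfl⟩
  have := Finset.card_le_card_of_injOn (s := A)
    (t := Finset.Icc (0 : ℤ) ⌊1 / ε⌋₊ ×ˢ Fintype.piFinset fun _ : Fin n => Finset.Icc (-(D : ℤ)) D)
    (fun x => (c x, fun j => c (φ^[j + 1] x) - t (c (φ^[j] x)))) ?_ ?_
  · refine this.trans (le_of_eq ?_)
    simp only [Finset.card_product, Int.card_Icc, Fintype.card_piFinset, Finset.prod_const,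
      Finset.card_univ, Fintype.card_fin]
    congr 2
    omega
  · intro x _
    simp only [Finset.coe_product, Set.mem_prod, Finset.mem_coe, Fintype.mem_piFinset]
    refine ⟨Finset.mem_Icc.mpr ⟨Int.floor_nonneg.mpr (div_nonneg x.2.1 hε.le), ?_⟩, fun j => ?_⟩
    · rw [Int.natCast_floor_eq_floor (by positivity)]
      exact Int.floor_le_floor (div_le_div_of_nonneg_right x.2.2 hε.le)
    · rw [Function.iterate_succ_apply']
      exact ht _ _ rfl
  · intro x hx y hy e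
    simp only [Prod.mk.injEq] at e
    by_contra hne
    obtain ⟨j, hj, hlt⟩ := hA x hx y hy hne
    have key : ∀ j ≤ n, c (φ^[j] x) = c (φ^[j] y) := by
      intro j
      induction j with
      | zero => exact fun _ => e.1
      | succ j ih =>
        intro hj
        have := congrFun e.2 ⟨j, hj⟩
        simp only [ih (by omega)] at this
        omega
    exact absurd (cell hε (key j hj.le)) (not_le.mpr hlt)

lemma rate {φ : I → I} {K α ε : ℝ} (hK : 0 < K) (hα : 0 < α) (hα1 : α ≤ 1) (hε : 0 < ε)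
    (hε1 : ε < 1) (h : ∀ x y : I, |(φ x : ℝ) - φ y| ≤ K * |(x : ℝ) - y| ^ α) :
    sepRate φ ε ≤ ((Real.log (2 * K + 5) + (1 - α) * |Real.log ε| : ℝ) : EReal) := by
  set M : ℕ := 2 * (⌈K * ε ^ (α - 1)⌉₊ + 1) + 1 with hM
  set N : ℕ := ⌊1 / ε⌋₊ + 1 with hN
  have M0 : (0 : ℝ) < M := by positivity
  have N1 : (1 : ℝ) ≤ N := by rw [hN]; push_cast; linarith [Nat.cast_nonneg (α := ℝ) ⌊1 / ε⌋₊]
  have M1 : (1 : ℝ) ≤ M := by exact_mod_cast (by omega : 1 ≤ M)
  have h1 : Real.log M ≤ Real.log (2 * K + 5) + (1 - α) * |Real.log ε| := by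
    have e1 : 1 ≤ ε ^ (α - 1) := Real.one_le_rpow_of_pos_of_le_one_of_nonpos hε hε1.le (by linarith)
    have e2 := (Nat.ceil_lt_add_one (show 0 ≤ K * ε ^ (α - 1) by positivity)).le
    have e3 : (M : ℝ) ≤ (2 * K + 5) * ε ^ (α - 1) := by rw [hM]; push_cast; nlinarith
    refine (Real.log_le_log M0 e3).trans (le_of_eq ?_)
    rw [Real.log_mul (by positivity) (by positivity), Real.log_rpow hε,
      abs_of_neg (Real.log_neg hε hε1)]
    ring
  have h2 : Tendsto (fun n : ℕ => ((Real.log N / n + Real.log M : ℝ) : EReal)) atTop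
      (𝓝 ((0 + Real.log M : ℝ) : EReal)) :=
    EReal.tendsto_coe.mpr ((tendsto_const_div_atTop_nhds_zero_nat _).add_const _)
  refine le_trans (limsup_le_limsup ?_) (h2.limsup_eq.le.trans (EReal.coe_le_coe (by linarith)))
  filter_upwards [eventually_gt_atTop 0] with n hn
  refine EReal.coe_le_coe ?_
  have n0 : (0 : ℝ) < n := by exact_mod_cast hn
  have h3 : Real.log (sepN φ n ε) ≤ Real.log N + n * Real.log M := by
    rcases Nat.eq_zero_or_pos (sepN φ n ε) with h0 | h0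
    · rw [h0]
      have := Real.log_nonneg N1
      have := Real.log_nonneg M1
      simp; positivity
    · have := count hK hα hε h n
      refine (Real.log_le_log (by exact_mod_cast h0)
        (show _ ≤ (N : ℝ) * M ^ n by exact_mod_cast this)).trans (le_of_eq ?_)
      rw [Real.log_mul (by positivity) (by positivity), Real.log_pow]
  rw [div_le_iff₀ n0, add_mul, div_mul_cancel₀ _ n0.ne']
  linarith

theorem result (α : ℝ) (hα : 0 < α) (hα1 : α ≤ 1) (φ : I → I)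
    (hφ : ∃ K : ℝ, 0 < K ∧ ∀ x y : I, |(φ x : ℝ) - φ y| ≤ K * |(x : ℝ) - y| ^ α) :
    upperMdim φ ≤ ((1 - α : ℝ) : EReal) ∧ upperMdim φ ≠ 1 ∧ lowerMdim φ ≠ 1 := by
  obtain ⟨K, hK, h⟩ := hφ
  have h1 : upperMdim φ ≤ ((1 - α : ℝ) : EReal) := by
    have h2 : Tendsto (fun ε : ℝ => ((Real.log (2 * K + 5) / |Real.log ε| + (1 - α) : ℝ) : EReal))
        (𝓝[>] 0) (𝓝 ((0 + (1 - α) : ℝ) : EReal)) :=
      EReal.tendsto_coe.mpr ((tendsto_const_nhds.div_atTop
        (tendsto_abs_atBot_atTop.comp Real.tendsto_log_nhdsGT_zero)).add_const _)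
    refine le_trans (limsup_le_limsup ?_) (h2.limsup_eq.le.trans (EReal.coe_le_coe (by linarith)))
    filter_upwards [Ioo_mem_nhdsGT (show (0 : ℝ) < 1 by norm_num)] with ε hε
    have l0 : 0 < |Real.log ε| := abs_pos.mpr (Real.log_neg hε.1 hε.2).ne
    refine (EReal.div_le_div_right_of_nonneg (by exact_mod_cast l0.le)
      (rate hK hα hα1 hε.1 hε.2 h)).trans (le_of_eq ?_)
    rw [← EReal.coe_div]
    congr 1
    field_simp
  have h3 : ((1 - α : ℝ) : EReal) < 1 := by exact_mod_cast (by linarith : 1 - α < 1)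
  exact ⟨h1, (h1.trans_lt h3).ne, (((liminf_le_limsup (f := 𝓝[>] (0 : ℝ))).trans h1).trans_lt h3).ne⟩

end Pool.Agent.Results.MP_428550_an.Holder
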